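import Mathlib
import Pool.Agent.Lib.MP_d27c8d_nt.Limit

/-!
MP_d27c8d_nt: canonical heights on almost all rational linear spaces containing the diagonal,
for arbitrary polynomial maps of degree `d`.
-/

open Polynomial MPd27c8d Filter Topology

/-- Let `d ≥ 2`, `n > m (d + r)` and `A` real. Among the integer `n × r` matrices `c` with entries
of absolute value at most `H`, the proportion of those without the following property tends to
zero as `H` tends to infinity: for all polynomials `f 0, ..., f (m - 1)` of degree `d` over the
algebraic numbers, every choice `τ` of one of them for each `i < n`, every algebraic `x` and every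
nonzero algebraic vector `y`, the canonical heights of `x + (c y) i` with respect to `f (τ i)` have
sum at least `A`. -/
theorem Pool.Agent.Results.MP_d27c8d_nt.AlmostAllSpaces.result :
    ∀ (d r m n : ℕ), 2 ≤ d → m * (d + r) < n → ∀ A : ℝ,
      Tendsto (fun H : ℕ => (({c : Fin n → Fin r → ℤ | (∀ i l, |c i l| ≤ (H : ℤ)) ∧
          ¬ ∀ (f : Fin m → Qbar[X]) (τ : Fin n → Fin m) (x : Qbar) (y : Fin r → Qbar),
            (∀ i, (f i).natDegree = d) → y ≠ 0 →
            A ≤ ∑ i, canonicalHeight (f (τ i)) (x + ∑ l, ((c i l : ℤ) : Qbar) * y l)}.ncard : ℕ) :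
          ℝ) / (2 * (H : ℝ) + 1) ^ (n * r)) atTop (𝓝 0) :=
  fun d r m n hd hn A => limit_poly d r m n hd hn A
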