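import Mathlib
import Pool.Agent.Lib.MP_d27c8d_nt.Select

/-!
MP_d27c8d_nt: canonical heights of the values of a polynomial along an infinite sequence of
integers, with finitely many polynomial maps of the same degree.
-/

open Polynomial MPd27c8d

/-- Let `c` be an infinite sequence of distinct integers, `d ≥ 2`, `r`, `m` natural numbers and
`A` real. There is `ℓ` such that for all polynomials `f 0, ..., f (m - 1)` of degree `d` over the
algebraic numbers, every choice `τ` of one of them for each index, and every `g` of degree
between `1` and `r`, the canonical heights of `g (c j)` with respect to `f (τ j)`, `j < ℓ`, have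
sum at least `A`. -/
theorem Pool.Agent.Results.MP_d27c8d_nt.IntegerNodes.result :
    ∀ (c : ℕ → ℤ), Function.Injective c → ∀ (d r m : ℕ) (A : ℝ), 2 ≤ d →
      ∃ ℓ : ℕ, ∀ (f : Fin m → Qbar[X]) (τ : ℕ → Fin m) (g : Qbar[X]),
        (∀ i, (f i).natDegree = d) → 1 ≤ g.natDegree → g.natDegree ≤ r →
        A ≤ ∑ j ∈ Finset.range ℓ, canonicalHeight (f (τ j)) (g.eval ((c j : ℤ) : Qbar)) :=
  fun c hc d r m A hd => sequence_theorem c hc d r m A hd
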