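import Mathlib
import Pool.Agent.Lib.MP_d27c8d_nt.Moving

/-!
MP_d27c8d_nt: unicritical maps with moving parameters along an infinite sequence of integers.
-/

open Polynomial MPd27c8d

/-- Let `c` be an infinite sequence of distinct integers, `d ≥ 2`, `r` a natural number and `A`
real. There is `ℓ` such that for all polynomials `g`, `h` of degree at most `r` over the algebraic
numbers, not both constant, either `F (F (F g)) = F g` for the map `F : p ↦ p ^ d + h` on
polynomials, or the canonical heights of `g (c j)` with respect to `z ^ d + h (c j)`, `j < ℓ`,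
have sum at least `A`. -/
theorem Pool.Agent.Results.MP_d27c8d_nt.MovingMaps.result :
    ∀ (c : ℕ → ℤ), Function.Injective c → ∀ (d r : ℕ) (A : ℝ), 2 ≤ d →
      ∃ ℓ : ℕ, ∀ (g h : Qbar[X]), g.natDegree ≤ r → h.natDegree ≤ r →
        (1 ≤ g.natDegree ∨ 1 ≤ h.natDegree) →
        (fun p : Qbar[X] => p ^ d + h)^[3] g = (fun p : Qbar[X] => p ^ d + h)^[1] g ∨
        A ≤ ∑ j ∈ Finset.range ℓ, canonicalHeight (X ^ d + C (h.eval ((c j : ℤ) : Qbar)))
          (g.eval ((c j : ℤ) : Qbar)) :=
  fun c hc d r A hd => moving_dichotomy c hc d r A hd
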