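import Mathlib
import Pool.Agent.Lib.MP_d27c8d_nt.Limit

/-!
MP_d27c8d_nt: canonical heights on almost all rational linear spaces, for the quadratic family.
-/

open Polynomial MPd27c8d Filter Topology

/-- Let `n > m (r + 1)` and `A` real. Among the integer `n × r` matrices `c` with entries of
absolute value at most `H`, the proportion of those without the following property tends to
zero as `H` tends to infinity: for all algebraic numbers `t 0, ..., t (m - 1)`, every choice `τ` of
one of them for each `i < n` and every nonzero algebraic vector `y`, the canonical heights of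
`(c y) i` with respect to `z ^ 2 + t (τ i)` have sum at least `A`. -/
theorem Pool.Agent.Results.MP_d27c8d_nt.QuadraticFamily.result :
    ∀ (r m n : ℕ), m * (r + 1) < n → ∀ A : ℝ,
      Tendsto (fun H : ℕ => (({c : Fin n → Fin r → ℤ | (∀ i l, |c i l| ≤ (H : ℤ)) ∧
          ¬ ∀ (t : Fin m → Qbar) (τ : Fin n → Fin m) (y : Fin r → Qbar), y ≠ 0 →
            A ≤ ∑ i, canonicalHeight (X ^ 2 + Polynomial.C (t (τ i)))
              (∑ l, ((c i l : ℤ) : Qbar) * y l)}.ncard : ℕ) : ℝ) /
          (2 * (H : ℝ) + 1) ^ (n * r)) atTop (𝓝 0) :=
  fun r m n hn A => limit_quad r m n hn A
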